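import Pool.Agent.Helper81.Intro.Core

/-!
# The construction of the sequence `a`
-/

namespace Pool.Helper81.Intro

open Filter

/-- An abstract partial operator taking a set and a number to a number. -/
structure Op where
  /-- The graph. -/
  R : Set ℕ → ℕ → ℕ → Prop
  func : ∀ D x y y', R D x y → R D x y' → y = y'
  cont : ∀ D x y, R D x y → ∃ u : ℕ, ∀ D' : Set ℕ, (∀ z < u, z ∈ D ↔ z ∈ D') → R D' x y

/-- The initial segment of `a` of length `j`. -/
def pre (a : ℕ → ℕ) (j : ℕ) : List ℕ := (List.range j).map a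

@[simp] theorem pre_length (a : ℕ → ℕ) (j : ℕ) : (pre a j).length = j := by simp [pre]

theorem pre_succ (a : ℕ → ℕ) (j : ℕ) : pre a (j + 1) = pre a j ++ [a j] := by
  simp [pre, List.range_succ]

/-- The element of column `n` attached to the node `τ`. -/
def elt (n : ℕ) (τ : List ℕ) : ℕ := Encodable.encode (n, τ.set n 0)

/-- The set attached to the sequence `a`. -/
def ASet (a : ℕ → ℕ) : Set ℕ := {x | ∃ n j, n < j ∧ x = elt n (pre a j)}

/-- The element of the column above `p` attached to the tail `σ` (it does not depend on the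
value of the sequence at `p.length`). -/
def cc (p : List ℕ) (σ : List ℕ) : ℕ := Encodable.encode (p.length, p ++ 0 :: σ)

/-- The element which is in `ASet a` iff `a n = v` (when `p = pre a n`). -/
def qry (p : List ℕ) (v : ℕ) : ℕ := Encodable.encode (p.length + 1, p ++ [v, 0])

theorem elt_append (p : List ℕ) (v : ℕ) (σ : List ℕ) :
    elt p.length (p ++ v :: σ) = cc p σ := by
  simp [elt, cc]

theorem length_le_encode (l : List ℕ) : l.length ≤ Encodable.encode l := by
  induction l with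
  | nil => simp
  | cons a l ih =>
    rw [List.length_cons, Encodable.encode_list_cons]
    have := Nat.right_le_pair (Encodable.encode a) (Encodable.encode l)
    omega

theorem length_le_cc (p σ : List ℕ) : σ.length ≤ cc p σ := by
  have h1 := length_le_encode (p ++ 0 :: σ)
  have h2 : Encodable.encode (p ++ 0 :: σ) ≤ cc p σ := by
    rw [cc, Encodable.encode_prod_val]
    exact Nat.right_le_pair _ _
  simp only [List.length_append, List.length_cons] at h1
  omega

theorem qry_mem_iff (a : ℕ → ℕ) (n v : ℕ) : qry (pre a n) v ∈ ASet a ↔ v = a n := by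
  constructor
  · rintro ⟨n', j, hj, h⟩
    rw [qry, elt] at h
    have h' := Encodable.encode_injective h
    rw [Prod.mk.injEq, pre_length] at h'
    obtain ⟨h1, h2⟩ := h'
    subst h1
    have hlen := congrArg List.length h2
    simp only [List.length_append, pre_length, List.length_cons, List.length_nil,
      List.length_set] at hlen
    obtain rfl : j = n + 1 + 1 := by omega
    rw [pre_succ, pre_succ, List.append_assoc] at h2
    have h3 : (pre a n ++ ([a n] ++ [a (n + 1)])).set (n + 1) 0 = pre a n ++ [a n, 0] := by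
      rw [List.set_append_right _ _ (by simp)]
      simp
    rw [h3] at h2
    have := List.append_cancel_left h2
    simpa using this
  · rintro rfl
    refine ⟨n + 1, n + 1 + 1, by omega, ?_⟩
    rw [qry, elt, pre_length, pre_succ, pre_succ, List.append_assoc]
    congr 2
    rw [List.set_append_right _ _ (by simp)]
    simp

section

variable (Φ : ℕ → Op)

/-- The `i`-th operator commits to the value `v`. -/
def vote (i : ℕ) (p : List ℕ) (v : ℕ) (s : Finset ℕ) : Prop :=
  ∀ D : Set ℕ, (∀ y, (∃ z ∈ s, y ≤ z) → (y ∈ D ↔ y ∈ s)) →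
    (Φ i).R D (qry p v) 1 ∧ ∀ v' < v, (Φ i).R D (qry p v') 0

theorem vote_persist (i : ℕ) (p : List ℕ) (v : ℕ) : Persist (vote Φ i p v) := by
  intro s y hy hs D hD
  apply hs D
  rintro x ⟨z, hz, hxz⟩
  rw [hD x ⟨z, Finset.mem_insert_of_mem hz, hxz⟩, Finset.mem_insert]
  have := hy z hz
  constructor
  · rintro (h | h)
    · omega
    · exact h
  · exact Or.inr

theorem vote_disj (i : ℕ) (p : List ℕ) {v v' : ℕ} (hv : v < v') (s : Finset ℕ)
    (h : vote Φ i p v s) (h' : vote Φ i p v' s) : False := by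
  have h1 := (h (s : Set ℕ) (fun y _ => by simp)).1
  have h2 := (h' (s : Set ℕ) (fun y _ => by simp)).2 v hv
  have := (Φ i).func _ _ _ _ h1 h2
  omega

variable (U : List ℕ → Ultrafilter (List ℕ))

/-- The commitments. -/
def Good (τ : List ℕ) (M : ℕ → Finset ℕ) : Prop :=
  ∀ p v β, τ = p ++ v :: β → ∀ i ≤ p.length, ∀ s ⊆ M p.length,
    ¬ K U (cc p) (vote Φ i p v) β s

/-- The nodes compatible with the commitments. -/
def XM (M : ℕ → Finset ℕ) : Set (List ℕ) := {τ | (∀ m, τ.length ≤ m → M m = ∅) ∧ Good Φ U τ M}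

end

section

variable {Φ : ℕ → Op} {U : List ℕ → Ultrafilter (List ℕ)} {V : Ultrafilter ℕ}

theorem cc_large (htree : ∀ β T, VClosed (V : Filter ℕ) T → β ∈ T →
      ∀ m : ℕ, {σ | σ ∈ T ∧ β <+: σ ∧ m < σ.length} ∈ U β) (p : List ℕ) (β : List ℕ) (b : ℕ) :
    {σ | b < cc p σ} ∈ U β := by
  have := htree β Set.univ (fun σ _ => by simp) (Set.mem_univ _) b
  refine Filter.mem_of_superset this ?_
  rintro σ ⟨-, -, h⟩
  exact lt_of_lt_of_le h (length_le_cc p σ)

theorem XM_closed (hV : ∀ a : ℕ, ∀ᶠ x in (V : Filter ℕ), x ≠ a)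
    (hcoh : ∀ β S, S ∈ U β ↔ ∀ᶠ a in (V : Filter ℕ), S ∈ U (β ++ [a]))
    (htree : ∀ β T, VClosed (V : Filter ℕ) T → β ∈ T →
      ∀ m : ℕ, {σ | σ ∈ T ∧ β <+: σ ∧ m < σ.length} ∈ U β)
    (M : ℕ → Finset ℕ) : VClosed (V : Filter ℕ) (XM Φ U M) := by
  rintro τ ⟨h1, h2⟩
  -- the new column
  have hnew : ∀ᶠ a in (V : Filter ℕ), ∀ i ≤ τ.length, ∀ s ⊆ M τ.length,
      ¬ K U (cc τ) (vote Φ i τ a) [] s := by
    have : ∀ i ∈ Finset.range (τ.length + 1), ∀ᶠ a in (V : Filter ℕ),
        ¬ K U (cc τ) (vote Φ i τ a) [] ∅ := by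
      intro i _
      by_cases hex : ∃ v, K U (cc τ) (vote Φ i τ v) [] ∅
      · obtain ⟨v, hv⟩ := hex
        filter_upwards [hV v] with a ha hK
        rcases lt_or_gt_of_ne ha with h | h
        · exact hK.disjoint (cc_large htree τ) (vote_persist Φ i τ a) (vote_persist Φ i τ v)
            (fun s => vote_disj Φ i τ h s) hv
        · exact hv.disjoint (cc_large htree τ) (vote_persist Φ i τ v) (vote_persist Φ i τ a)
            (fun s => vote_disj Φ i τ h s) hK
      · push Not at hex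
        exact Filter.Eventually.of_forall hex
    rw [← Filter.eventually_all_finset] at this
    filter_upwards [this] with a ha i hi s hs
    rw [h1 τ.length le_rfl, Finset.subset_empty] at hs
    subst hs
    exact ha i (Finset.mem_range.2 (by omega))
  have hold : ∀ m ∈ Finset.range τ.length, ∀ᶠ a in (V : Filter ℕ),
      ∀ p v β, p.length = m → τ = p ++ v :: β → ∀ i ≤ p.length, ∀ s ⊆ M p.length,
        ¬ K U (cc p) (vote Φ i p v) (β ++ [a]) s := by
    intro m hm
    rw [Finset.mem_range] at hm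
    have hdec : τ = τ.take m ++ τ[m] :: τ.drop (m + 1) := by simp
    have : ∀ i ∈ Finset.range (m + 1), ∀ s ∈ (M m).powerset, ∀ᶠ a in (V : Filter ℕ),
        ¬ K U (cc (τ.take m)) (vote Φ i (τ.take m) τ[m]) (τ.drop (m + 1) ++ [a]) s := by
      intro i hi s hs
      rw [Finset.mem_range] at hi
      rw [Finset.mem_powerset] at hs
      have hl : (τ.take m).length = m := by simp; omega
      exact K.compl_closed hcoh (h2 _ _ _ hdec i (by omega) s (by rw [hl]; exact hs))
    have h3 : ∀ i ∈ Finset.range (m + 1), ∀ᶠ a in (V : Filter ℕ), ∀ s ∈ (M m).powerset,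
        ¬ K U (cc (τ.take m)) (vote Φ i (τ.take m) τ[m]) (τ.drop (m + 1) ++ [a]) s := by
      intro i hi
      rw [Filter.eventually_all_finset]
      exact this i hi
    rw [← Filter.eventually_all_finset] at h3
    filter_upwards [h3] with a ha p v β hp hτ i hi s hs
    have hl : (τ.take m).length = m := by simp; omega
    obtain ⟨e1, e2⟩ := List.append_inj (hτ.symm.trans hdec) (by rw [hp, hl])
    obtain ⟨e3, e4⟩ := List.cons.inj e2
    rw [hp] at hs hi
    rw [e1, e3, e4]
    exact ha i (Finset.mem_range.2 (by omega)) s (Finset.mem_powerset.2 hs)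
  rw [← Filter.eventually_all_finset] at hold
  filter_upwards [hnew, hold] with a ha hb
  refine ⟨fun m hm => h1 m (by simp at hm; omega), ?_⟩
  intro p v β hdec
  rcases List.eq_nil_or_concat β with rfl | ⟨β', b, rfl⟩
  · obtain ⟨e1, e2⟩ := List.append_inj' hdec rfl
    obtain ⟨e3, -⟩ := List.cons.inj e2
    subst e1 e3
    exact ha
  · have hdec' : τ ++ [a] = (p ++ v :: β') ++ [b] := by simpa using hdec
    obtain ⟨e1, e2⟩ := List.append_inj' hdec' rfl
    obtain ⟨e3, -⟩ := List.cons.inj e2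
    subst e3
    rw [List.concat_eq_append]
    exact hb p.length (Finset.mem_range.2 (by rw [e1]; simp)) p v β' rfl e1

/-- Conditions. -/
structure Cond (Φ : ℕ → Op) (U : List ℕ → Ultrafilter (List ℕ)) where
  /-- The finite part of the sequence. -/
  τ : List ℕ
  /-- The marks in each column. -/
  M : ℕ → Finset ℕ
  marks : ∀ n, ∀ y ∈ M n, ∃ j, n < j ∧ j ≤ τ.length ∧ y = elt n (τ.take j)
  good : Good Φ U τ M

theorem Cond.mem_XM (q : Cond Φ U) : q.τ ∈ XM Φ U q.M := by
  refine ⟨fun m hm => ?_, q.good⟩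
  rw [Finset.eq_empty_iff_forall_notMem]
  intro y hy
  obtain ⟨j, h1, h2, -⟩ := q.marks m y hy
  omega

/-- Extension. -/
def Cond.Ext (q q' : Cond Φ U) : Prop := q.τ <+: q'.τ ∧ ∀ n, q.M n ⊆ q'.M n

theorem Cond.Ext.trans {q q' q'' : Cond Φ U} (h : q.Ext q') (h' : q'.Ext q'') : q.Ext q'' :=
  ⟨h.1.trans h'.1, fun n => (h.2 n).trans (h'.2 n)⟩

theorem take_eq_of_prefix {τ τ' : List ℕ} (h : τ <+: τ') {j : ℕ} (hj : j ≤ τ.length) :
    τ.take j = τ'.take j := by
  obtain ⟨t, rfl⟩ := h
  rw [List.take_append_of_le_length hj]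

theorem Cond.exists_long (hV : ∀ a : ℕ, ∀ᶠ x in (V : Filter ℕ), x ≠ a)
    (hcoh : ∀ β S, S ∈ U β ↔ ∀ᶠ a in (V : Filter ℕ), S ∈ U (β ++ [a]))
    (htree : ∀ β T, VClosed (V : Filter ℕ) T → β ∈ T →
      ∀ m : ℕ, {σ | σ ∈ T ∧ β <+: σ ∧ m < σ.length} ∈ U β)
    (q : Cond Φ U) (b : ℕ) : ∃ q' : Cond Φ U, q.Ext q' ∧ b < q'.τ.length := by
  obtain ⟨σ, h1, h2, h3⟩ := (XM_closed hV hcoh htree q.M).exists_long q.mem_XM b
  refine ⟨⟨σ, q.M, ?_, h1.2⟩, ⟨h2, fun n => Finset.Subset.refl _⟩, h3⟩
  intro n y hy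
  obtain ⟨j, h4, h5, h6⟩ := q.marks n y hy
  exact ⟨j, h4, h5.trans h2.length_le, by rw [h6, take_eq_of_prefix h2 h5]⟩

theorem Cond.exists_mark (hV : ∀ a : ℕ, ∀ᶠ x in (V : Filter ℕ), x ≠ a)
    (hcoh : ∀ β S, S ∈ U β ↔ ∀ᶠ a in (V : Filter ℕ), S ∈ U (β ++ [a]))
    (htree : ∀ β T, VClosed (V : Filter ℕ) T → β ∈ T →
      ∀ m : ℕ, {σ | σ ∈ T ∧ β <+: σ ∧ m < σ.length} ∈ U β)
    (q : Cond Φ U) (n : ℕ) (hn : n < q.τ.length) (b : ℕ) :
    ∃ q' : Cond Φ U, q.Ext q' ∧ ∃ y ∈ q'.M n, b < y := by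
  classical
  obtain ⟨p, v, β, hp, hτ⟩ : ∃ p v β, p.length = n ∧ q.τ = p ++ v :: β :=
    ⟨q.τ.take n, q.τ[n], q.τ.drop (n + 1), by simp; omega, by simp⟩
  have hclosed := XM_closed hV hcoh htree (Φ := Φ) (U := U) q.M
  have hrel : VClosed (V : Filter ℕ) {σ | p ++ v :: σ ∈ XM Φ U q.M} := by
    intro σ hσ
    filter_upwards [hclosed _ hσ] with a ha
    simpa using ha
  have h1 := htree β _ hrel (by change p ++ v :: β ∈ XM Φ U q.M; rw [← hτ]; exact q.mem_XM) b
  have h2 : ∀ i ∈ Finset.range (n + 1), ∀ s ∈ (q.M n).powerset,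
      {σ | ¬ K U (cc p) (vote Φ i p v) σ (insert (cc p σ) s)} ∈ (U β : Filter (List ℕ)) := by
    intro i hi s hs
    rw [Finset.mem_range] at hi
    rw [Finset.mem_powerset] at hs
    exact K.compl_step (q.good p v β hτ i (by omega) s (by rw [hp]; exact hs))
  have h3 : ∀ i ∈ Finset.range (n + 1), ∀ᶠ σ in (U β : Filter (List ℕ)),
      ∀ s ∈ (q.M n).powerset, ¬ K U (cc p) (vote Φ i p v) σ (insert (cc p σ) s) := by
    intro i hi
    rw [Filter.eventually_all_finset]
    exact h2 i hi
  rw [← Filter.eventually_all_finset] at h3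
  obtain ⟨σ, hσ4, ⟨hσ1, hσ2, hσ3⟩⟩ := Ultrafilter.nonempty_of_mem
    (Filter.inter_mem (f := (U β : Filter (List ℕ))) h3 h1)
  have hpre : q.τ <+: p ++ v :: σ := by
    rw [hτ]
    obtain ⟨t, rfl⟩ := hσ2
    exact ⟨t, by simp⟩
  have hcc : cc p σ = elt n (p ++ v :: σ) := by rw [← hp, elt_append]
  refine ⟨⟨p ++ v :: σ, Function.update q.M n (insert (cc p σ) (q.M n)), ?_, ?_⟩,
    ⟨hpre, ?_⟩, cc p σ, ?_, lt_of_lt_of_le hσ3 (length_le_cc p σ)⟩
  · intro m y hy
    by_cases hm : m = n
    · subst hm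
      rw [Function.update_self, Finset.mem_insert] at hy
      rcases hy with rfl | hy
      · refine ⟨(p ++ v :: σ).length, by simp; omega, le_rfl, ?_⟩
        rw [List.take_length, hcc]
      · obtain ⟨j, h4, h5, h6⟩ := q.marks m y hy
        exact ⟨j, h4, h5.trans hpre.length_le, by rw [h6, take_eq_of_prefix hpre h5]⟩
    · rw [Function.update_of_ne hm] at hy
      obtain ⟨j, h4, h5, h6⟩ := q.marks m y hy
      exact ⟨j, h4, h5.trans hpre.length_le, by rw [h6, take_eq_of_prefix hpre h5]⟩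
  · intro p' v' β' hdec i hi s hs
    by_cases hm : p'.length = n
    · obtain ⟨e1, e2⟩ := List.append_inj hdec (by rw [hp, hm])
      obtain ⟨e3, e4⟩ := List.cons.inj e2
      subst e1 e3 e4
      rw [hp, Function.update_self] at hs
      rw [hp] at hi
      by_cases hc : cc p σ ∈ s
      · have := hσ4 i (Finset.mem_range.2 (by omega)) (s.erase (cc p σ))
          (Finset.mem_powerset.2 (by
            intro x hx
            rw [Finset.mem_erase] at hx
            have := hs hx.2
            rw [Finset.mem_insert] at this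
            exact this.resolve_left hx.1))
        rwa [Finset.insert_erase hc] at this
      · refine hσ1.2 p v σ rfl i (by omega) s ?_
        rw [hp]
        intro x hx
        have := hs hx
        rw [Finset.mem_insert] at this
        rcases this with rfl | h
        · exact absurd hx hc
        · exact h
    · rw [Function.update_of_ne hm] at hs
      exact hσ1.2 p' v' β' hdec i hi s hs
  · intro m
    by_cases hm : m = n
    · subst hm
      simp
    · simp [Function.update_of_ne hm]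
  · simp

/-- The main combinatorial theorem. -/
theorem exists_a (Φ : ℕ → Op) : ∃ a : ℕ → ℕ, ∀ n, ∃ H : Set ℕ, H.Infinite ∧ H ⊆ ASet a ∧
    ∀ i ≤ n, ∀ s : Finset ℕ, ↑s ⊆ H → ¬ vote Φ i (pre a n) (a n) s := by
  classical
  obtain ⟨U, hcoh, htree⟩ := exists_family (Filter.hyperfilter ℕ)
  have hV : ∀ a : ℕ, ∀ᶠ x in ((Filter.hyperfilter ℕ : Ultrafilter ℕ) : Filter ℕ), x ≠ a := by
    intro a
    exact Filter.hyperfilter_le_cofinite (Set.Finite.compl_mem_cofinite (Set.finite_singleton a))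
  have hstep : ∀ (k : ℕ) (q : Cond Φ U), ∃ q' : Cond Φ U, q.Ext q' ∧ k < q'.τ.length ∧
      ∃ y ∈ q'.M k.unpair.1, k.unpair.2 < y := by
    intro k q
    obtain ⟨q1, h1, h2⟩ := q.exists_long hV hcoh htree k
    obtain ⟨q2, h3, y, h4⟩ := q1.exists_mark hV hcoh htree k.unpair.1
      (lt_of_le_of_lt (Nat.unpair_left_le k) h2) k.unpair.2
    exact ⟨q2, h1.trans h3, lt_of_lt_of_le h2 h3.1.length_le, y, h4⟩
  choose f hf1 hf2 hf3 using hstep
  let q0 : Cond Φ U := ⟨[], fun _ => ∅, by simp, fun p v β h => by simp at h⟩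
  let q : ℕ → Cond Φ U := fun k => Nat.rec q0 (fun k q => f k q) k
  have hq : ∀ k, q (k + 1) = f k (q k) := fun k => rfl
  have hmono : ∀ k l, k ≤ l → (q k).Ext (q l) := by
    intro k l hkl
    induction hkl with
    | refl => exact ⟨List.prefix_rfl, fun n => Finset.Subset.refl _⟩
    | step _ ih => exact ih.trans (by rw [hq]; exact hf1 _ _)
  have hlen : ∀ k, k < (q (k + 1)).τ.length := fun k => by rw [hq]; exact hf2 _ _
  let a : ℕ → ℕ := fun m => (q (m + 1)).τ[m]'(hlen m)
  have ha : ∀ k, (q k).τ = pre a (q k).τ.length := by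
    intro k
    apply List.ext_getElem (by simp)
    intro m h1 h2
    simp only [pre, List.getElem_map, List.getElem_range, a]
    rcases le_total k (m + 1) with h | h
    · exact (hmono _ _ h).1.getElem h1
    · exact ((hmono _ _ h).1.getElem (hlen m)).symm
  have htake : ∀ k j, j ≤ (q k).τ.length → (q k).τ.take j = pre a j := by
    intro k j hj
    rw [ha k, pre, ← List.map_take, List.take_range, Nat.min_eq_left hj, pre]
  refine ⟨a, fun n => ⟨{y | ∃ k, y ∈ (q k).M n}, ?_, ?_, ?_⟩⟩
  · rw [Set.infinite_iff_exists_gt]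
    intro b
    obtain ⟨y, hy1, hy2⟩ := hf3 (Nat.pair n b) (q (Nat.pair n b))
    rw [Nat.unpair_pair] at hy1 hy2
    exact ⟨y, ⟨Nat.pair n b + 1, by rw [hq]; exact hy1⟩, hy2⟩
  · rintro y ⟨k, hk⟩
    obtain ⟨j, h1, h2, h3⟩ := (q k).marks n y hk
    exact ⟨n, j, h1, by rw [h3, htake k j h2]⟩
  · intro i hi s hs hvote
    -- a single stage containing all of `s`
    have : ∃ k, n < k ∧ s ⊆ (q k).M n := by
      clear hvote
      induction s using Finset.induction_on with
      | empty => exact ⟨n + 1, by omega, by simp⟩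
      | insert x s hx ih =>
        rw [Finset.coe_insert, Set.insert_subset_iff] at hs
        obtain ⟨k, hk1, hk2⟩ := ih hs.2
        obtain ⟨l, hl⟩ := hs.1
        refine ⟨max k l, by omega, ?_⟩
        rw [Finset.insert_subset_iff]
        exact ⟨(hmono l _ (le_max_right _ _)).2 n hl,
          hk2.trans ((hmono k _ (le_max_left _ _)).2 n)⟩
    obtain ⟨k, hk1, hk2⟩ := this
    have hnk : n < (q k).τ.length :=
      lt_of_lt_of_le (hlen n) (hmono (n + 1) k (by omega)).1.length_le
    have hdec : (q k).τ = pre a n ++ a n :: (q k).τ.drop (n + 1) := by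
      have e1 : (q k).τ.take (n + 1) = pre a n ++ [a n] := by
        rw [htake k (n + 1) (by omega), pre_succ]
      calc (q k).τ = (q k).τ.take (n + 1) ++ (q k).τ.drop (n + 1) := by simp
        _ = _ := by rw [e1]; simp
    exact (q k).good (pre a n) (a n) _ hdec i (by simpa using hi) s (by simpa using hk2)
      (K.vote _ _ hvote)

end

end Pool.Helper81.Intro
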