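import Pool.Agent.Helper81.Intro.Defs

/-!
# Basic facts on oracle programs
-/

namespace Pool.Helper81.Intro

/-- A numbering of the programs. -/
def OCode.num : OCode → ℕ
  | .zero => 0
  | .succ => 1
  | .left => 2
  | .right => 3
  | .oracle => 4
  | .pair f g => 5 + 4 * Nat.pair f.num g.num
  | .comp f g => 6 + 4 * Nat.pair f.num g.num
  | .prec f g => 7 + 4 * Nat.pair f.num g.num
  | .rfind f => 8 + 4 * f.num

theorem OCode.num_injective : Function.Injective OCode.num := by
  intro f
  induction f with
  | zero => intro g h; cases g <;> simp [OCode.num] at h ⊢ <;> omega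
  | succ => intro g h; cases g <;> simp [OCode.num] at h ⊢ <;> omega
  | left => intro g h; cases g <;> simp [OCode.num] at h ⊢ <;> omega
  | right => intro g h; cases g <;> simp [OCode.num] at h ⊢ <;> omega
  | oracle => intro g h; cases g <;> simp [OCode.num] at h ⊢ <;> omega
  | pair f1 f2 ih1 ih2 =>
    intro g h
    cases g with
    | pair g1 g2 =>
      simp only [OCode.num, add_right_inj, mul_eq_mul_left_iff, OfNat.ofNat_ne_zero, or_false,
        Nat.pair_eq_pair] at h
      rw [ih1 h.1, ih2 h.2]
    | _ => exfalso; simp only [OCode.num] at h; omega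
  | comp f1 f2 ih1 ih2 =>
    intro g h
    cases g with
    | comp g1 g2 =>
      simp only [OCode.num, add_right_inj, mul_eq_mul_left_iff, OfNat.ofNat_ne_zero, or_false,
        Nat.pair_eq_pair] at h
      rw [ih1 h.1, ih2 h.2]
    | _ => exfalso; simp only [OCode.num] at h; omega
  | prec f1 f2 ih1 ih2 =>
    intro g h
    cases g with
    | prec g1 g2 =>
      simp only [OCode.num, add_right_inj, mul_eq_mul_left_iff, OfNat.ofNat_ne_zero, or_false,
        Nat.pair_eq_pair] at h
      rw [ih1 h.1, ih2 h.2]
    | _ => exfalso; simp only [OCode.num] at h; omega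
  | rfind f1 ih1 =>
    intro g h
    cases g with
    | rfind g1 =>
      simp only [OCode.num, add_right_inj, mul_eq_mul_left_iff, OfNat.ofNat_ne_zero,
        or_false] at h
      rw [ih1 h]
    | _ => exfalso; simp only [OCode.num] at h; omega

instance : Countable OCode := OCode.num_injective.countable

/-- The functions computed by oracle programs are exactly Mathlib's functions recursive in the
oracle. -/
theorem OCode.exists_iff (g f : ℕ → Part ℕ) :
    TuringReducible f g ↔ ∃ c : OCode, c.eval g = f := by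
  rw [TuringReducible, RecursiveIn.iff_nat]
  constructor
  · intro h
    induction h with
    | zero => exact ⟨.zero, rfl⟩
    | succ => exact ⟨.succ, rfl⟩
    | left => exact ⟨.left, rfl⟩
    | right => exact ⟨.right, rfl⟩
    | oracle g' hg' => exact ⟨.oracle, by rw [Set.mem_singleton_iff.1 hg']; rfl⟩
    | pair _ _ ih1 ih2 =>
      obtain ⟨c1, rfl⟩ := ih1
      obtain ⟨c2, rfl⟩ := ih2
      exact ⟨.pair c1 c2, rfl⟩
    | comp _ _ ih1 ih2 =>
      obtain ⟨c1, rfl⟩ := ih1
      obtain ⟨c2, rfl⟩ := ih2
      exact ⟨.comp c1 c2, rfl⟩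
    | prec _ _ ih1 ih2 =>
      obtain ⟨c1, rfl⟩ := ih1
      obtain ⟨c2, rfl⟩ := ih2
      exact ⟨.prec c1 c2, rfl⟩
    | rfind _ ih1 =>
      obtain ⟨c1, rfl⟩ := ih1
      exact ⟨.rfind c1, rfl⟩
  · rintro ⟨c, rfl⟩
    induction c with
    | zero => exact Nat.RecursiveIn.zero
    | succ => exact Nat.RecursiveIn.succ
    | left => exact Nat.RecursiveIn.left
    | right => exact Nat.RecursiveIn.right
    | oracle => exact Nat.RecursiveIn.oracle _ rfl
    | pair _ _ ih1 ih2 => exact Nat.RecursiveIn.pair ih1 ih2
    | comp _ _ ih1 ih2 => exact Nat.RecursiveIn.comp ih1 ih2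
    | prec _ _ ih1 ih2 => exact Nat.RecursiveIn.prec ih1 ih2
    | rfind _ ih => exact Nat.RecursiveIn.rfind ih

end Pool.Helper81.Intro
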