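import Pool.Agent.Helper81.Intro.Ultra

/-!
# The class of losing states
-/

namespace Pool.Helper81.Intro

open Filter

/-- The least class of states `(β, s)` containing the states with `P s` and closed under
`U β`-almost all new marks leading into the class. -/
inductive K (U : List ℕ → Ultrafilter (List ℕ)) (c : List ℕ → ℕ) (P : Finset ℕ → Prop) :
    List ℕ → Finset ℕ → Prop
  | vote (β : List ℕ) (s : Finset ℕ) (h : P s) : K U c P β s
  | step (β : List ℕ) (s : Finset ℕ) (S : Set (List ℕ)) (hS : S ∈ U β)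
      (h : ∀ σ ∈ S, K U c P σ (insert (c σ) s)) : K U c P β s

/-- Persistence of a property of finite sets under end-extensions. -/
def Persist (P : Finset ℕ → Prop) : Prop :=
  ∀ s : Finset ℕ, ∀ y : ℕ, (∀ z ∈ s, z < y) → P s → P (insert y s)

section

variable {U : List ℕ → Ultrafilter (List ℕ)} {c : List ℕ → ℕ} {P Q : Finset ℕ → Prop}

theorem K.not_of_vote (hlarge : ∀ β b, {σ | b < c σ} ∈ U β)
    (hP : Persist P) (hPQ : ∀ s, P s → Q s → False) {β : List ℕ} {s : Finset ℕ}
    (h : K U c Q β s) : P s → False := by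
  induction h with
  | vote β s h => exact fun h' => hPQ s h' h
  | step β s S hS h ih =>
    intro hs
    obtain ⟨σ, h1, h2⟩ := Ultrafilter.nonempty_of_mem
      (Filter.inter_mem (f := (U β : Filter (List ℕ))) hS (hlarge β (s.sup id)))
    exact ih σ h1 (hP s _ (fun z hz => lt_of_le_of_lt (Finset.le_sup (f := id) hz) h2) hs)

theorem K.disjoint (hlarge : ∀ β b, {σ | b < c σ} ∈ U β)
    (hP : Persist P) (hQ : Persist Q) (hPQ : ∀ s, P s → Q s → False)
    {β : List ℕ} {s : Finset ℕ} (h : K U c P β s) : K U c Q β s → False := by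
  induction h with
  | vote β s h => exact fun h' => h'.not_of_vote hlarge hP hPQ h
  | step β s S hS h ih =>
    intro h'
    cases h' with
    | vote _ _ h' =>
      exact (K.step β s S hS h).not_of_vote hlarge hQ (fun s h1 h2 => hPQ s h2 h1) h'
    | step _ _ S' hS' h' =>
      obtain ⟨σ, h1, h2⟩ := Ultrafilter.nonempty_of_mem
        (Filter.inter_mem (f := (U β : Filter (List ℕ))) hS hS')
      exact ih σ h1 (h' σ h2)

/-- Claim A: the complement of the class is closed under `V`-many successors. -/
theorem K.compl_closed {V : Ultrafilter ℕ}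
    (hcoh : ∀ β S, S ∈ U β ↔ ∀ᶠ a in (V : Filter ℕ), S ∈ U (β ++ [a]))
    {β : List ℕ} {s : Finset ℕ} (h : ¬ K U c P β s) :
    ∀ᶠ a in (V : Filter ℕ), ¬ K U c P (β ++ [a]) s := by
  rw [Ultrafilter.eventually_not]
  intro h'
  apply h
  by_cases hs : P s
  · exact K.vote β s hs
  · refine K.step β s {σ | K U c P σ (insert (c σ) s)} ?_ (fun σ hσ => hσ)
    rw [hcoh]
    filter_upwards [h'] with a ha
    cases ha with
    | vote _ _ h1 => exact absurd h1 hs
    | step _ _ S hS h1 => exact Filter.mem_of_superset hS h1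

/-- Half of claim B. -/
theorem K.compl_step {β : List ℕ} {s : Finset ℕ} (h : ¬ K U c P β s) :
    {σ | ¬ K U c P σ (insert (c σ) s)} ∈ U β := by
  have : ¬ {σ | K U c P σ (insert (c σ) s)} ∈ U β := fun h' =>
    h (K.step β s _ h' (fun σ hσ => hσ))
  exact (Ultrafilter.compl_mem_iff_notMem.2 this)

end

end Pool.Helper81.Intro
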