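import Mathlib

/-!
# Turing operators, introreducible sets and finite decomposability
-/

namespace Pool.Helper81.Intro

/-- The characteristic function of a set of natural numbers, as an oracle. -/
noncomputable def chi (C : Set ℕ) : ℕ → Part ℕ :=
  fun n => Part.some (C.indicator (fun _ => 1) n)

/-- Programs for oracle computations. The constructors are those of Mathlib's
`Nat.RecursiveIn`. -/
inductive OCode : Type
  | zero : OCode
  | succ : OCode
  | left : OCode
  | right : OCode
  | oracle : OCode
  | pair : OCode → OCode → OCode
  | comp : OCode → OCode → OCode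
  | prec : OCode → OCode → OCode
  | rfind : OCode → OCode

/-- The function computed by a program with the oracle `g`. -/
def OCode.eval (g : ℕ → Part ℕ) : OCode → ℕ → Part ℕ
  | .zero => fun _ => Part.some 0
  | .succ => fun n => Part.some (n + 1)
  | .left => fun n => Part.some n.unpair.1
  | .right => fun n => Part.some n.unpair.2
  | .oracle => g
  | .pair cf ch => fun n => Nat.pair <$> OCode.eval g cf n <*> OCode.eval g ch n
  | .comp cf ch => fun n => OCode.eval g ch n >>= OCode.eval g cf
  | .prec cf ch => fun p =>
      p.unpair.2.rec (OCode.eval g cf p.unpair.1) fun y IH => do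
        let i ← IH
        OCode.eval g ch (Nat.pair p.unpair.1 (Nat.pair y i))
  | .rfind cf => fun a => Nat.rfind fun n => (fun m => m = 0) <$> OCode.eval g cf (Nat.pair a n)

/-- An infinite set `A` is introreducible if it is Turing reducible to each of its infinite
subsets (`TuringReducible` is Mathlib's). -/
def Introreducible (A : Set ℕ) : Prop :=
  A.Infinite ∧ ∀ C ⊆ A, C.Infinite → TuringReducible (chi A) (chi C)

/-- `A ≤ᵘⁱ B`: a single oracle program computes `A` from every infinite subset of `B`. -/
def UiReducible (A B : Set ℕ) : Prop :=
  ∃ c : OCode, ∀ C ⊆ B, C.Infinite → c.eval (chi C) = chi A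

/-- `A` is a finite union of sets from whose infinite subsets `A` is uniformly computable. -/
def FinitelyDecomposable (A : Set ℕ) : Prop :=
  ∃ (n : ℕ) (D : Fin (n + 1) → Set ℕ), A = ⋃ i, D i ∧ ∀ i, UiReducible A (D i)

end Pool.Helper81.Intro
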