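import Pool.Agent.Helper81.Intro.Codes
import Pool.Agent.Helper81.Intro.Build

/-!
# Finite use, and the failure of finite decomposability
-/

namespace Pool.Helper81.Intro

theorem chi_congr {D D' : Set ℕ} {n : ℕ} (h : n ∈ D ↔ n ∈ D') : chi D n = chi D' n := by
  classical
  simp only [chi, Set.indicator_apply, h]

/-- Agreement of two sets below `u`. -/
def Agree (D D' : Set ℕ) (u : ℕ) : Prop := ∀ z < u, z ∈ D ↔ z ∈ D'

theorem Agree.mono {D D' : Set ℕ} {u u' : ℕ} (h : Agree D D' u) (hu : u' ≤ u) :
    Agree D D' u' := fun z hz => h z (lt_of_lt_of_le hz hu)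

/-- The use principle. -/
theorem OCode.use (c : OCode) : ∀ (D : Set ℕ) (x y : ℕ), y ∈ c.eval (chi D) x →
    ∃ u : ℕ, ∀ D' : Set ℕ, Agree D D' u → y ∈ c.eval (chi D') x := by
  induction c with
  | zero => exact fun D x y h => ⟨0, fun D' _ => h⟩
  | succ => exact fun D x y h => ⟨0, fun D' _ => h⟩
  | left => exact fun D x y h => ⟨0, fun D' _ => h⟩
  | right => exact fun D x y h => ⟨0, fun D' _ => h⟩
  | oracle =>
    intro D x y h
    refine ⟨x + 1, fun D' hD' => ?_⟩
    have : chi D x = chi D' x := chi_congr (hD' x (Nat.lt_succ_self x))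
    simp only [OCode.eval] at h ⊢
    rwa [← this]
  | pair cf ch ih1 ih2 =>
    intro D x y h
    simp only [OCode.eval, Seq.seq, Part.map_eq_map, Part.mem_bind_iff, Part.mem_map_iff,
      Part.bind_map] at h ⊢
    obtain ⟨a, ha, b, hb, hab⟩ := h
    obtain ⟨u1, h1⟩ := ih1 D x a ha
    obtain ⟨u2, h2⟩ := ih2 D x b hb
    exact ⟨max u1 u2, fun D' hD' => ⟨a, h1 D' (hD'.mono (le_max_left _ _)), b,
      h2 D' (hD'.mono (le_max_right _ _)), hab⟩⟩
  | comp cf ch ih1 ih2 =>
    intro D x y h
    change y ∈ (ch.eval (chi D) x).bind (cf.eval (chi D)) at h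
    obtain ⟨a, ha, hb⟩ := Part.mem_bind_iff.1 h
    obtain ⟨u1, h1⟩ := ih1 D a y hb
    obtain ⟨u2, h2⟩ := ih2 D x a ha
    exact ⟨max u1 u2, fun D' hD' => Part.mem_bind_iff.2 ⟨a, h2 D' (hD'.mono (le_max_right _ _)),
      h1 D' (hD'.mono (le_max_left _ _))⟩⟩
  | prec cf ch ih1 ih2 =>
    intro D x y h
    simp only [OCode.eval] at h ⊢
    generalize x.unpair.1 = a at h ⊢
    generalize x.unpair.2 = n at h ⊢
    induction n generalizing y with
    | zero => exact ih1 D a y h
    | succ n ih =>
      simp only [Part.bind_eq_bind, Part.mem_bind_iff] at h ⊢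
      obtain ⟨b, hb, hy⟩ := h
      obtain ⟨u1, h1⟩ := ih b hb
      obtain ⟨u2, h2⟩ := ih2 D _ y hy
      exact ⟨max u1 u2, fun D' hD' => ⟨b, h1 D' (hD'.mono (le_max_left _ _)),
        h2 D' (hD'.mono (le_max_right _ _))⟩⟩
  | rfind cf ih =>
    intro D x y h
    have hiff : ∀ D : Set ℕ, y ∈ (OCode.rfind cf).eval (chi D) x ↔
        (∃ a ∈ cf.eval (chi D) (Nat.pair x y), decide (a = 0) = true) ∧
        ∀ {m : ℕ}, m < y → ∃ b ∈ cf.eval (chi D) (Nat.pair x m), decide (b = 0) = false := by
      intro D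
      refine Nat.mem_rfind.trans ?_
      simp only [Part.map_eq_map, Part.mem_map_iff]
    rw [hiff D] at h
    simp only [hiff]
    clear hiff
    obtain ⟨⟨a, ha, ha0⟩, hlt⟩ := h
    obtain ⟨u1, h1⟩ := ih D _ a ha
    have : ∃ u : ℕ, ∀ D' : Set ℕ, Agree D D' u → ∀ {m : ℕ}, m < y →
        ∃ b ∈ cf.eval (chi D') (Nat.pair x m), decide (b = 0) = false := by
      clear ha ha0 h1
      induction y with
      | zero => exact ⟨0, fun D' _ m hm => absurd hm (Nat.not_lt_zero _)⟩
      | succ y ihy =>
        obtain ⟨u, hu⟩ := ihy (fun {m} hm => hlt (Nat.lt_succ_of_lt hm))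
        obtain ⟨b, hb, hb0⟩ := hlt (Nat.lt_succ_self y)
        obtain ⟨u2, h2⟩ := ih D _ b hb
        refine ⟨max u u2, fun D' hD' m hm => ?_⟩
        rcases Nat.lt_succ_iff_lt_or_eq.1 hm with h | rfl
        · exact hu D' (hD'.mono (le_max_left _ _)) h
        · exact ⟨b, h2 D' (hD'.mono (le_max_right _ _)), hb0⟩
    obtain ⟨u2, h2⟩ := this
    exact ⟨max u1 u2, fun D' hD' => ⟨⟨a, h1 D' (hD'.mono (le_max_left _ _)), ha0⟩,
      fun {m} hm => h2 D' (hD'.mono (le_max_right _ _)) hm⟩⟩

/-- The abstract operator given by a program. -/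
def OCode.toOp (c : OCode) : Op where
  R D x y := y ∈ c.eval (chi D) x
  func _ _ _ _ h h' := Part.mem_unique h h'
  cont D x y h := c.use D x y h

/-- There is a sequence `a` such that `ASet a` is not finitely decomposable. -/
theorem exists_not_decomposable : ∃ a : ℕ → ℕ, (ASet a).Infinite ∧
    ¬ FinitelyDecomposable (ASet a) := by
  classical
  obtain ⟨num, hnum⟩ : ∃ num : OCode → ℕ, Function.Injective num :=
    ⟨OCode.num, OCode.num_injective⟩
  -- an enumeration of the codes
  have : Nonempty OCode := ⟨.zero⟩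
  let code : ℕ → OCode := Function.invFun num
  have hcode : ∀ c, code (num c) = c := Function.leftInverse_invFun hnum
  obtain ⟨a, ha⟩ := exists_a (fun i => (code i).toOp)
  refine ⟨a, ?_, ?_⟩
  · obtain ⟨H, h1, h2, -⟩ := ha 0
    exact h1.mono h2
  · rintro ⟨k, D, hD, hui⟩
    choose c hc using hui
    -- a column handling all the programs `c i`
    obtain ⟨n, hn⟩ : ∃ n, ∀ i, num (c i) ≤ n :=
      ⟨Finset.univ.sup (fun i => num (c i)), fun i =>
        Finset.le_sup (f := fun i => num (c i)) (Finset.mem_univ i)⟩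
    obtain ⟨H, hH1, hH2, hH3⟩ := ha n
    -- pigeonhole
    obtain ⟨i, hi⟩ : ∃ i, (H ∩ D i).Infinite := by
      by_contra hcon
      push Not at hcon
      apply hH1
      have : H ⊆ ⋃ i, (H ∩ D i) := by
        intro x hx
        have := hH2 hx
        rw [hD, Set.mem_iUnion] at this
        obtain ⟨i, hi⟩ := this
        exact Set.mem_iUnion.2 ⟨i, hx, hi⟩
      exact (Set.finite_iUnion hcon).subset this
    set C := H ∩ D i with hC
    have heval := hc i C Set.inter_subset_right hi
    have hop : (code (num (c i))) = c i := hcode _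
    have hval : ∀ v : ℕ, v ≤ a n → ∃ u : ℕ, ∀ D' : Set ℕ, Agree C D' u →
        (if v = a n then 1 else 0) ∈ (c i).eval (chi D') (qry (pre a n) v) := by
      intro v _
      apply (c i).use
      rw [heval, chi, Set.indicator_apply]
      simp only [qry_mem_iff]
      exact Part.mem_some _
    have hall : ∃ u : ℕ, ∀ D' : Set ℕ, Agree C D' u → ∀ v ≤ a n,
        (if v = a n then 1 else 0) ∈ (c i).eval (chi D') (qry (pre a n) v) := by
      choose! u hu using hval
      refine ⟨(Finset.range (a n + 1)).sup u, fun D' hD' v hv => hu v hv D' (hD'.mono ?_)⟩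
      exact Finset.le_sup (f := u) (Finset.mem_range.2 (by omega))
    obtain ⟨u, hu⟩ := hall
    obtain ⟨t, htC, htu⟩ := hi.exists_gt u
    refine hH3 (num (c i)) (hn i) ((Finset.range (t + 1)).filter (· ∈ C)) ?_ ?_
    · intro x hx
      simp only [Finset.coe_filter, Finset.mem_range, Set.mem_ofPred_eq] at hx
      exact hx.2.1
    · intro D' hD'
      have hag : Agree C D' u := by
        intro z hz
        have := hD' z ⟨t, by simp [htC], by omega⟩
        rw [this]
        simp only [Finset.mem_filter, Finset.mem_range]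
        constructor
        · intro h; exact ⟨by omega, h⟩
        · intro h; exact h.2
      constructor
      · have := hu D' hag (a n) le_rfl
        rw [if_pos rfl] at this
        simpa [OCode.toOp, hop] using this
      · intro v' hv'
        have := hu D' hag v' hv'.le
        rw [if_neg (by omega)] at this
        simpa [OCode.toOp, hop] using this

end Pool.Helper81.Intro
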