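import Pool.Agent.Helper81.Intro.Codes
import Pool.Agent.Helper81.Intro.Build

/-!
# The sets `ASet a` are introreducible
-/

namespace Pool.Helper81.Intro

/-- Search relative to an oracle. -/
theorem reducible_of_search {A C : Set ℕ} (P : ℕ → ℕ → Bool) (G : ℕ → ℕ → ℕ)
    (hP : Primrec₂ P) (hG : Primrec₂ G) (hex : ∀ x, ∃ i ∈ C, P x i = true)
    (hA : ∀ x, ∀ i ∈ C, P x i = true → G x i = A.indicator (fun _ => 1) x) :
    TuringReducible (chi A) (chi C) := by
  classical
  refine RecursiveIn.iff_nat.2 ?_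
  -- the test
  have hT : Nat.Primrec (fun n : ℕ =>
      if n.unpair.2 = 1 ∧ P n.unpair.1.unpair.1 n.unpair.1.unpair.2 = true then 0 else 1) := by
    rw [← Primrec.nat_iff]
    have h1 : Primrec (fun n : ℕ => n.unpair.1) := Primrec.fst.comp Primrec.unpair
    have h2 : Primrec (fun n : ℕ => n.unpair.2) := Primrec.snd.comp Primrec.unpair
    refine Primrec.ite ?_ (Primrec.const 0) (Primrec.const 1)
    refine PrimrecPred.and ?_ ?_
    · exact Primrec.eq.comp h2 (Primrec.const 1)
    · exact Primrec.eq.comp (hP.comp (h1.comp h1) (h2.comp h1)) (Primrec.const true)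
  have hG' : Nat.Primrec (fun n : ℕ => G n.unpair.1 n.unpair.2) := by
    rw [← Primrec.nat_iff]
    have h1 : Primrec (fun n : ℕ => n.unpair.1) := Primrec.fst.comp Primrec.unpair
    have h2 : Primrec (fun n : ℕ => n.unpair.2) := Primrec.snd.comp Primrec.unpair
    exact hG.comp h1 h2
  have hid : Nat.RecursiveIn {chi C} (fun n : ℕ => (Part.some n : Part ℕ)) :=
    Nat.Primrec.id.recursiveIn
  have hor : Nat.RecursiveIn {chi C} (chi C) := .oracle _ rfl
  have h1 := Nat.RecursiveIn.comp hT.recursiveIn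
    (Nat.RecursiveIn.pair hid (Nat.RecursiveIn.comp hor Nat.RecursiveIn.right))
  have h2 := Nat.RecursiveIn.rfind h1
  have h3 := Nat.RecursiveIn.comp hG'.recursiveIn (Nat.RecursiveIn.pair hid h2)
  refine h3.of_eq (fun x => ?_)
  have hinner : ∀ n, ((fun m => decide (m = 0)) <$> (do
      let n ← Nat.pair <$> Part.some (Nat.pair x n) <*>
        ((Part.some (Nat.unpair (Nat.pair x n)).2 : Part ℕ) >>= chi C)
      (Part.some (if (Nat.unpair n).2 = 1 ∧
        P (Nat.unpair (Nat.unpair n).1).1 (Nat.unpair (Nat.unpair n).1).2 = true then 0 else 1) :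
          Part ℕ)) : Part Bool) = Part.some (decide (n ∈ C ∧ P x n = true)) := by
    intro n
    by_cases hn : n ∈ C
    · by_cases hp : P x n = true
      · simp [chi, hn, hp, Seq.seq]
      · simp [chi, hn, hp, Seq.seq]
    · simp [chi, hn, Seq.seq]
  obtain ⟨i, hiC, hiP⟩ := hex x
  obtain ⟨n, hn, -⟩ := Nat.rfind_min' (p := fun n => decide (n ∈ C ∧ P x n = true)) (m := i)
    (by simp [hiC, hiP])
  have hn' := Nat.rfind_spec hn
  have hn2 : n ∈ C ∧ P x n = true := by simpa using hn'
  have hrf : (Nat.rfind fun n => ((fun m => decide (m = 0)) <$> (do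
      let n ← Nat.pair <$> Part.some (Nat.pair x n) <*>
        ((Part.some (Nat.unpair (Nat.pair x n)).2 : Part ℕ) >>= chi C)
      (Part.some (if (Nat.unpair n).2 = 1 ∧
        P (Nat.unpair (Nat.unpair n).1).1 (Nat.unpair (Nat.unpair n).1).2 = true then 0 else 1) :
          Part ℕ)) : Part Bool)) = Part.some n := by
    rw [Part.eq_some_iff]
    have : (fun n => ((fun m => decide (m = 0)) <$> (do
      let n ← Nat.pair <$> Part.some (Nat.pair x n) <*>
        ((Part.some (Nat.unpair (Nat.pair x n)).2 : Part ℕ) >>= chi C)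
      (Part.some (if (Nat.unpair n).2 = 1 ∧
        P (Nat.unpair (Nat.unpair n).1).1 (Nat.unpair (Nat.unpair n).1).2 = true then 0 else 1) :
          Part ℕ)) : Part Bool)) = fun n => Part.some (decide (n ∈ C ∧ P x n = true)) :=
      funext hinner
    rw [this]
    exact hn
  have hG2 := hA x n hn2.1 hn2.2
  calc _ = ((Nat.pair <$> Part.some x <*> Part.some n : Part ℕ) >>=
        fun n => Part.some (G n.unpair.1 n.unpair.2)) := by
        rw [← hrf]
        rfl
    _ = chi A x := by simp [Seq.seq, chi, hG2]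

/-- Decoding of numbers as elements of the columns. -/
def dcd (x : ℕ) : ℕ × List ℕ := Denumerable.ofNat (ℕ × List ℕ) x

theorem dcd_encode (p : ℕ × List ℕ) : dcd (Encodable.encode p) = p :=
  Denumerable.ofNat_encode p

theorem primrec_dcd : Primrec dcd := Primrec.ofNat (ℕ × List ℕ)

theorem mem_ASet_iff (a : ℕ → ℕ) (x : ℕ) : x ∈ ASet a ↔
    (dcd x).1 < (dcd x).2.length ∧ (dcd x).2 = (pre a (dcd x).2.length).set (dcd x).1 0 := by
  constructor
  · rintro ⟨n, j, hj, rfl⟩
    rw [elt, dcd_encode]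
    simp [hj]
  · rintro ⟨h1, h2⟩
    refine ⟨(dcd x).1, (dcd x).2.length, h1, ?_⟩
    rw [elt, ← h2]
    exact (Denumerable.encode_ofNat (α := ℕ × List ℕ) x).symm

/-- The key computation: an element of `ASet a` in a suitable column determines an initial
segment of `a`. -/
theorem recover (a : ℕ → ℕ) (n ns j l : ℕ) (hl : l ≤ n ∨ n = ns) (hlj : l ≤ j) :
    ((((pre a j).set n 0).set ns (a ns)).take l) = pre a l := by
  apply List.ext_getElem
  · simp; omega
  · intro m h1 h2
    simp only [pre_length] at h2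
    rw [List.getElem_take, List.getElem_set, List.getElem_set]
    simp only [pre, List.getElem_map, List.getElem_range]
    split_ifs with h3 h4
    · rw [h3]
    · omega
    · rfl

theorem reducible_of_subset (a : ℕ → ℕ) (C : Set ℕ) (hC : C ⊆ ASet a) (ns : ℕ)
    (hex : ∀ l : ℕ, ∃ i ∈ C, (l ≤ (dcd i).1 ∨ (dcd i).1 = ns) ∧ l ≤ (dcd i).2.length) :
    TuringReducible (chi (ASet a)) (chi C) := by
  classical
  refine reducible_of_search
    (fun x i => decide (((dcd x).2.length ≤ (dcd i).1 ∨ (dcd i).1 = ns) ∧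
      (dcd x).2.length ≤ (dcd i).2.length))
    (fun x i => if (dcd x).1 < (dcd x).2.length ∧
      (dcd x).2 = ((((dcd i).2.set ns (a ns)).take (dcd x).2.length).set (dcd x).1 0)
      then 1 else 0) ?_ ?_ ?_ ?_
  · have hx1 : Primrec (fun p : ℕ × ℕ => (dcd p.1).2.length) :=
      Primrec.list_length.comp (Primrec.snd.comp (primrec_dcd.comp Primrec.fst))
    have hi1 : Primrec (fun p : ℕ × ℕ => (dcd p.2).1) :=
      Primrec.fst.comp (primrec_dcd.comp Primrec.snd)
    have hi2 : Primrec (fun p : ℕ × ℕ => (dcd p.2).2.length) :=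
      Primrec.list_length.comp (Primrec.snd.comp (primrec_dcd.comp Primrec.snd))
    have h1 : PrimrecPred (fun p : ℕ × ℕ =>
        ((dcd p.1).2.length ≤ (dcd p.2).1 ∨ (dcd p.2).1 = ns) ∧
        (dcd p.1).2.length ≤ (dcd p.2).2.length) :=
      ((Primrec.nat_le.comp hx1 hi1).or (Primrec.eq.comp hi1 (Primrec.const ns))).and
        (Primrec.nat_le.comp hx1 hi2)
    exact primrecPred_iff_primrec_decide.1 h1
  · have hx0 : Primrec (fun p : ℕ × ℕ => (dcd p.1).1) :=
      Primrec.fst.comp (primrec_dcd.comp Primrec.fst)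
    have hx2 : Primrec (fun p : ℕ × ℕ => (dcd p.1).2) :=
      Primrec.snd.comp (primrec_dcd.comp Primrec.fst)
    have hx1 : Primrec (fun p : ℕ × ℕ => (dcd p.1).2.length) :=
      Primrec.list_length.comp hx2
    have hi2 : Primrec (fun p : ℕ × ℕ => (dcd p.2).2) :=
      Primrec.snd.comp (primrec_dcd.comp Primrec.snd)
    have hs1 : Primrec (fun p : ℕ × ℕ => (dcd p.2).2.set ns (a ns)) :=
      Primrec.list_set.comp hi2 (Primrec.const (ns, a ns))
    have hs2 : Primrec (fun p : ℕ × ℕ =>
        ((dcd p.2).2.set ns (a ns)).take (dcd p.1).2.length) :=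
      Primrec.list_take.comp hx1 hs1
    have hs3 : Primrec (fun p : ℕ × ℕ =>
        ((((dcd p.2).2.set ns (a ns)).take (dcd p.1).2.length).set (dcd p.1).1 0)) :=
      Primrec.list_set.comp hs2 (Primrec.pair hx0 (Primrec.const 0))
    refine Primrec.ite ?_ (Primrec.const 1) (Primrec.const 0)
    exact (Primrec.nat_lt.comp hx0 hx1).and (Primrec.eq.comp hx2 hs3)
  · intro x
    obtain ⟨i, hi, h1, h2⟩ := hex (dcd x).2.length
    exact ⟨i, hi, by simpa using ⟨h1, h2⟩⟩
  · intro x i hi hP
    rw [decide_eq_true_eq] at hP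
    obtain ⟨n, j, hj, rfl⟩ := hC hi
    rw [elt, dcd_encode] at hP
    simp only [List.length_set, pre_length] at hP
    rw [Set.indicator_apply, mem_ASet_iff, elt, dcd_encode]
    simp only
    rw [recover a n ns j _ hP.1 hP.2]
    split_ifs <;> rfl

theorem introreducible_ASet (a : ℕ → ℕ) (hinf : (ASet a).Infinite) :
    Introreducible (ASet a) := by
  classical
  refine ⟨hinf, fun C hC hCinf => ?_⟩
  by_cases hcol : ∀ N, ∃ i ∈ C, N ≤ (dcd i).1
  · refine reducible_of_subset a C hC 0 (fun l => ?_)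
    obtain ⟨i, hi, h1⟩ := hcol l
    refine ⟨i, hi, Or.inl h1, ?_⟩
    have := ((mem_ASet_iff a i).1 (hC hi)).1
    omega
  · push Not at hcol
    obtain ⟨N, hN⟩ := hcol
    obtain ⟨ns, hns⟩ : ∃ ns, {i | i ∈ C ∧ (dcd i).1 = ns}.Infinite := by
      by_contra hcon
      push Not at hcon
      apply hCinf
      have : C ⊆ ⋃ n ∈ Finset.range N, {i | i ∈ C ∧ (dcd i).1 = n} := by
        intro i hi
        simp only [Set.mem_iUnion]
        exact ⟨(dcd i).1, Finset.mem_range.2 (hN i hi), hi, rfl⟩
      exact (Set.Finite.biUnion (Finset.finite_toSet _) (fun n _ => hcon n)).subset this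
    refine reducible_of_subset a C hC ns (fun l => ?_)
    by_contra hcon
    push Not at hcon
    apply hns
    refine ((Finset.range l).image (fun j => elt ns (pre a j))).finite_toSet.subset ?_
    rintro i ⟨hi, hi2⟩
    have h1 := hcon i hi (Or.inr hi2)
    obtain ⟨n, j, hj, rfl⟩ := hC hi
    rw [elt, dcd_encode] at hi2 h1
    simp only [List.length_set, pre_length] at h1 hi2
    subst hi2
    simp only [Finset.coe_image, Finset.coe_range, Set.mem_image, Set.mem_Iio]
    exact ⟨j, h1, rfl⟩

end Pool.Helper81.Intro
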