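import Mathlib

/-!
# Coherent families of ultrafilters on the tree `ℕ^{<ω}`
-/

namespace Pool.Helper81.Intro

open Filter

theorem neBot_of {α : Type*} {F : Filter α} (h : ∅ ∉ F) : F.NeBot :=
  ⟨fun h' => h (by rw [h']; exact Filter.mem_bot)⟩

/-- A set of nodes closed under taking `V`-many successors. -/
def VClosed (V : Filter ℕ) (T : Set (List ℕ)) : Prop :=
  ∀ σ ∈ T, ∀ᶠ a in V, σ ++ [a] ∈ T

theorem VClosed.inter {V : Filter ℕ} {T T' : Set (List ℕ)} (h : VClosed V T)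
    (h' : VClosed V T') : VClosed V (T ∩ T') := by
  rintro σ ⟨h1, h2⟩
  filter_upwards [h σ h1, h' σ h2] with a ha hb
  exact ⟨ha, hb⟩

/-- The filter generated by the `V`-trees with stem `β`. -/
def baseF (V : Filter ℕ) (β : List ℕ) : Filter (List ℕ) where
  sets := {S | ∃ T, VClosed V T ∧ β ∈ T ∧ ∃ m : ℕ, ∀ σ ∈ T, β <+: σ → m < σ.length → σ ∈ S}
  univ_sets := ⟨Set.univ, fun σ _ => by simp, Set.mem_univ _, 0, fun _ _ _ _ => Set.mem_univ _⟩
  sets_of_superset := by
    rintro S S' ⟨T, hT, hβ, m, hm⟩ hSS'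
    exact ⟨T, hT, hβ, m, fun σ h1 h2 h3 => hSS' (hm σ h1 h2 h3)⟩
  inter_sets := by
    rintro S S' ⟨T, hT, hβ, m, hm⟩ ⟨T', hT', hβ', m', hm'⟩
    refine ⟨T ∩ T', hT.inter hT', ⟨hβ, hβ'⟩, max m m', fun σ h1 h2 h3 => ⟨?_, ?_⟩⟩
    · exact hm σ h1.1 h2 (lt_of_le_of_lt (le_max_left _ _) h3)
    · exact hm' σ h1.2 h2 (lt_of_le_of_lt (le_max_right _ _) h3)

theorem mem_baseF {V : Filter ℕ} {β : List ℕ} {S : Set (List ℕ)} :
    S ∈ baseF V β ↔
      ∃ T, VClosed V T ∧ β ∈ T ∧ ∃ m : ℕ, ∀ σ ∈ T, β <+: σ → m < σ.length → σ ∈ S := Iff.rfl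

theorem VClosed.exists_long {V : Filter ℕ} [V.NeBot] {T : Set (List ℕ)} (hT : VClosed V T)
    {β : List ℕ} (hβ : β ∈ T) (m : ℕ) : ∃ σ ∈ T, β <+: σ ∧ m < σ.length := by
  induction m with
  | zero =>
    obtain ⟨a, ha⟩ := (hT β hβ).exists
    exact ⟨β ++ [a], ha, List.prefix_append _ _, by simp⟩
  | succ m ih =>
    obtain ⟨σ, h1, h2, h3⟩ := ih
    obtain ⟨a, ha⟩ := (hT σ h1).exists
    exact ⟨σ ++ [a], ha, h2.trans (List.prefix_append _ _), by simp; omega⟩

instance baseF_neBot (V : Filter ℕ) [V.NeBot] (β : List ℕ) : (baseF V β).NeBot := by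
  refine neBot_of ?_
  rintro ⟨T, hT, hβ, m, hm⟩
  obtain ⟨σ, h1, h2, h3⟩ := hT.exists_long hβ m
  exact hm σ h1 h2 h3

theorem baseF_step {V : Filter ℕ} {β : List ℕ} {S : Set (List ℕ)} (hS : S ∈ baseF V β) :
    ∀ᶠ a in V, S ∈ baseF V (β ++ [a]) := by
  obtain ⟨T, hT, hβ, m, hm⟩ := hS
  filter_upwards [hT β hβ] with a ha
  exact ⟨T, hT, ha, m, fun σ h1 h2 h3 => hm σ h1 ((List.prefix_append _ _).trans h2) h3⟩

/-- The families over which Zorn's lemma is run. -/
def Fam (V : Filter ℕ) : Set (List ℕ → Filter (List ℕ)) :=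
  {G | (∀ β, G β ≤ baseF V β) ∧ (∀ β, (G β).NeBot) ∧
    ∀ β S, S ∈ G β → ∀ᶠ a in V, S ∈ G (β ++ [a])}

theorem exists_minimal (V : Filter ℕ) [V.NeBot] :
    ∃ G ∈ Fam V, ∀ G' ∈ Fam V, (∀ β, G' β ≤ G β) → ∀ β, G β ≤ G' β := by
  have hz := zorn_le_nonempty₀ (α := (List ℕ → Filter (List ℕ))ᵒᵈ)
    {G | OrderDual.ofDual G ∈ Fam V} ?_ (OrderDual.toDual (baseF V)) ?_
  · obtain ⟨m, -, hm⟩ := hz
    refine ⟨OrderDual.ofDual m, hm.1, fun G' hG' hle β => ?_⟩
    exact hm.2 (y := OrderDual.toDual G') hG' (fun β => hle β) β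
  · intro c hc hchain y hy
    classical
    let L : List ℕ → Filter (List ℕ) := fun β => ⨅ G : c, OrderDual.ofDual G.1 β
    have hne : Nonempty c := ⟨⟨y, hy⟩⟩
    have hdir : ∀ β, Directed (· ≥ ·) (fun G : c => OrderDual.ofDual G.1 β) := by
      intro β G1 G2
      rcases hchain.total G1.2 G2.2 with h | h
      · exact ⟨G2, h β, le_rfl⟩
      · exact ⟨G1, le_rfl, h β⟩
    have hmem : ∀ β S, S ∈ L β ↔ ∃ G : c, S ∈ OrderDual.ofDual G.1 β := fun β S =>
      Filter.mem_iInf_of_directed (hdir β) S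
    refine ⟨OrderDual.toDual L, ⟨?_, ?_, ?_⟩, ?_⟩
    · intro β
      exact (iInf_le _ (⟨y, hy⟩ : c)).trans ((hc hy).1 β)
    · intro β
      have : ∀ G : c, (OrderDual.ofDual G.1 β).NeBot := fun G => (hc G.2).2.1 β
      exact Filter.iInf_neBot_of_directed' (hdir β) this
    · intro β S hS
      obtain ⟨G, hG⟩ := (hmem β S).1 hS
      filter_upwards [(hc G.2).2.2 β S hG] with a ha
      exact (hmem _ _).2 ⟨G, ha⟩
    · intro z hz β
      exact iInf_le _ (⟨z, hz⟩ : c)
  · exact ⟨fun β => le_rfl, fun β => baseF_neBot V β, fun β S hS => baseF_step hS⟩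

theorem exists_family (V : Ultrafilter ℕ) : ∃ U : List ℕ → Ultrafilter (List ℕ),
    (∀ β S, S ∈ U β ↔ ∀ᶠ a in (V : Filter ℕ), S ∈ U (β ++ [a])) ∧
    (∀ β T, VClosed (V : Filter ℕ) T → β ∈ T →
      ∀ m : ℕ, {σ | σ ∈ T ∧ β <+: σ ∧ m < σ.length} ∈ U β) := by
  classical
  obtain ⟨G, ⟨hG1, hG2, hG3⟩, hmin⟩ := exists_minimal (V : Filter ℕ)
  -- coherence
  have hcoh : ∀ β S, (∀ᶠ a in (V : Filter ℕ), S ∈ G (β ++ [a])) → S ∈ G β := by
    intro β S hS
    have key := hmin (fun β => Filter.bind (V : Filter ℕ) (fun a => G (β ++ [a]))) ?_ ?_ β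
    · exact key (by rw [Filter.mem_bind']; exact hS)
    · refine ⟨fun β S hS => ?_, fun β => ?_, fun β S hS => ?_⟩
      · rw [Filter.mem_bind']
        exact hG3 β S (hG1 β hS)
      · refine neBot_of ?_
        rw [Filter.mem_bind']
        intro h
        obtain ⟨a, ha⟩ := (Filter.Eventually.exists h : ∃ a, ∅ ∈ G (β ++ [a]))
        exact (hG2 (β ++ [a])).ne (Filter.empty_mem_iff_bot.1 ha)
      · rw [Filter.mem_bind'] at hS
        have hS' : ∀ᶠ a in (V : Filter ℕ), S ∈ G (β ++ [a]) := hS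
        filter_upwards [hS'] with a ha
        rw [Filter.mem_bind']
        exact hG3 _ _ ha
    · intro β S hS
      rw [Filter.mem_bind']
      exact hG3 β S hS
  -- ultra
  have hultra : ∀ β S, S ∈ G β ∨ Sᶜ ∈ G β := by
    intro β₀ S
    by_contra hcon
    rw [not_or] at hcon
    obtain ⟨hS, hSc⟩ := hcon
    have key := hmin (fun β => if Sᶜ ∈ G β then G β else G β ⊓ 𝓟 S) ?_ ?_ β₀
    · have : S ∈ (if Sᶜ ∈ G β₀ then G β₀ else G β₀ ⊓ 𝓟 S) := by
        rw [if_neg hSc]
        exact Filter.mem_inf_of_right (Filter.mem_principal_self S)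
      exact hS (key this)
    · refine ⟨fun β => ?_, fun β => ?_, fun β X hX => ?_⟩
      · dsimp only
        split_ifs
        · exact hG1 β
        · exact inf_le_left.trans (hG1 β)
      · dsimp only
        split_ifs with h
        · exact hG2 β
        · refine neBot_of ?_
          intro h'
          apply h
          rw [Filter.mem_inf_principal] at h'
          filter_upwards [h'] with x hx hxS
          exact hx hxS
      · dsimp only at hX ⊢
        split_ifs at hX with h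
        · have h1 := hG3 β _ h
          filter_upwards [h1, hG3 β _ hX] with a ha hb
          rw [if_pos ha]
          exact hb
        · rw [Filter.mem_inf_principal] at hX
          have h1 : ∀ᶠ a in (V : Filter ℕ), ¬ Sᶜ ∈ G (β ++ [a]) := by
            rw [Ultrafilter.eventually_not]
            exact fun h2 => h (hcoh β _ h2)
          filter_upwards [h1, hG3 β _ hX] with a ha hb
          rw [if_neg ha, Filter.mem_inf_principal]
          exact hb
    · intro β
      split_ifs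
      · exact le_rfl
      · exact inf_le_left
  let U : List ℕ → Ultrafilter (List ℕ) := fun β =>
    Ultrafilter.ofComplNotMemIff (G β) (fun S => by
      constructor
      · intro h
        rcases hultra β S with h' | h'
        · exact h'
        · exact absurd h' h
      · intro h h'
        have := Filter.inter_mem h h'
        rw [Set.inter_compl_self] at this
        exact (hG2 β).ne (Filter.empty_mem_iff_bot.1 this))
  have hU : ∀ β S, S ∈ U β ↔ S ∈ G β := fun β S => Iff.rfl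
  refine ⟨U, fun β S => ?_, fun β T hT hβ m => ?_⟩
  · simp only [hU]
    exact ⟨hG3 β S, hcoh β S⟩
  · rw [hU]
    apply hG1 β
    exact ⟨T, hT, hβ, m, fun σ h1 h2 h3 => ⟨h1, h2, h3⟩⟩

end Pool.Helper81.Intro
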